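import Pool.Agent.helper45.SGK.Spec

set_option autoImplicit false

namespace Pool.Agent.SGK

open Finset Pool.Agent.helper38.Neg Pool.Agent.helper55.NT
open Pool.Agent.SGC (Sg SCirc Ext Mv hw RN Solv stA stB)

theorem CL3_zero (hCL1 : CL1_stmt) (hCL2 : CL2_stmt) (k : ℕ) (P : Finset (Wd k)) (hM : ¬ MajClosed P) (hA : ¬ AffClosed P)
    (I : Type) [Fintype I] (f : (I → ZMod 2) → ZMod 2) (hf : ∀ x, f (x + 1) = f x + 1) (h0 : f 0 = 0)
    (hp : ∀ p : I → Wd k, (∀ l, p l ∈ P) → (fun j => f fun l => p l j) ∈ P) : ∃ i, ∀ x, f x = x i := by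
  apply hCL2 I f hf h0
  intro g
  obtain ⟨l, hl⟩ := hCL1 k P hM hA (fun x => f (x ∘ g)) (fun x => hf (x ∘ g)) h0
    (fun p hpP => hp (fun i => p (g i)) (fun i => hpP (g i)))
  exact ⟨l, hl⟩

theorem CL3 (hCL1 : CL1_stmt) (hCL2 : CL2_stmt) : CL3_stmt := by
  intro k P hM hA I _ _ f hf hp
  have h2 : ∀ a : ZMod 2, a = 0 ∨ a = 1 := by decide
  have h3 : ∀ a : ZMod 2, a + 1 + 1 = a := by decide
  rcases h2 (f 0) with h0 | h1
  · obtain ⟨i, hi⟩ := CL3_zero hCL1 hCL2 k P hM hA I f hf h0 hp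
    exact ⟨i, 0, fun x => by rw [hi x, add_zero]⟩
  · have hc : ∀ b : ZMod 2, f (fun _ => b) = b + 1 := by
      intro b
      rcases h2 b with rfl | rfl
      · have : f (fun _ => (0 : ZMod 2)) = f 0 := rfl
        rw [this, h1]; rfl
      · have : f (fun _ => (1 : ZMod 2)) = f (0 + 1) := by rw [zero_add]; rfl
        rw [this, hf, h1]
    obtain ⟨i, hi⟩ := CL3_zero hCL1 hCL2 k P hM hA I (fun x => f x + 1) (fun x => by rw [hf x])
      (by show f 0 + 1 = 0; rw [h1]; rfl)
      (by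
        intro p hpP
        have hw := hp p hpP
        have hw2 := hp (fun _ => fun j => f fun l => p l j) (fun _ => hw)
        have he : (fun j => f fun _ : I => f fun l => p l j) = fun j => (f fun l => p l j) + 1 := by
          funext j; exact hc _
        rw [he] at hw2
        exact hw2)
    refine ⟨i, 1, fun x => ?_⟩
    rw [← hi x, h3]

end Pool.Agent.SGK
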