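import Pool.Agent.helper45.SGK.Spec

set_option autoImplicit false

namespace Pool.Agent.SGK

open Finset Pool.Agent.helper38.Neg Pool.Agent.helper55.NT
open Pool.Agent.SGC (Sg SCirc Ext Mv hw RN Solv stA stB)

theorem GEL_two (a : ZMod 2) : a + a = 0 := CharTwo.add_self_eq_zero a

theorem GEL_zero {m t : ℕ} (a : Fin m → Fin t → ZMod 2) (i : Fin t) (h : ∀ r, a r i = 0) (c : Fin m → ZMod 2) :
    ∑ r', Pool.Agent.SGC.piv a i r' * c r' = 0 := by
  apply Finset.sum_eq_zero
  intro r _
  unfold Pool.Agent.SGC.piv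
  rw [if_neg (by rw [h r]; exact fun hh => absurd hh.1 (by decide)), zero_mul]

theorem GEL_piv {m t : ℕ} (a : Fin m → Fin t → ZMod 2) (i : Fin t) (r₀ : Fin m) (h1 : a r₀ i = 1)
    (h2 : ∀ r' < r₀, a r' i = 0) (c : Fin m → ZMod 2) :
    ∑ r', Pool.Agent.SGC.piv a i r' * c r' = c r₀ := by
  have hp : ∀ r', Pool.Agent.SGC.piv a i r' = if r' = r₀ then 1 else 0 := by
    intro r'
    unfold Pool.Agent.SGC.piv
    by_cases h : r' = r₀
    · rw [if_pos h, if_pos]
      rw [h]; exact ⟨h1, h2⟩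
    · rw [if_neg h, if_neg]
      rintro ⟨h3, h4⟩
      rcases lt_or_gt_of_ne h with h5 | h5
      · rw [h2 r' h5] at h3
        exact absurd h3 (by decide)
      · rw [h4 r₀ h5] at h1
        exact absurd h1 (by decide)
  simp only [hp]
  simp

theorem GEL : GEL_stmt := by
  intro m t a b i
  have h2 : ∀ u : ZMod 2, u = 0 ∨ u = 1 := by decide
  have hiii : ∀ i', (∀ r, a r i' = 0) → ∀ r, stA a i r i' = 0 := by
    intro i' h r
    unfold Pool.Agent.SGC.stA
    rw [h r, zero_add]
    have : ∑ r', Pool.Agent.SGC.piv a i r' * a r' i' = 0 :=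
      Finset.sum_eq_zero (fun r' _ => by rw [h r', mul_zero])
    rw [this, mul_zero]
  by_cases hz : ∀ r, a r i = 0
  · have hA : stA a i = a := by
      funext r i'
      unfold Pool.Agent.SGC.stA
      rw [hz r, zero_mul, add_zero]
    have hB : stB a b i = b := by
      funext r
      unfold Pool.Agent.SGC.stB
      rw [hz r, zero_mul, add_zero]
    refine ⟨by rw [hA, hB], ?_, hiii⟩
    rw [hA]; exact hz
  · obtain ⟨r₁, hr₁⟩ := not_forall.1 hz
    have hr₁' : a r₁ i = 1 := (h2 _).resolve_left hr₁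
    obtain ⟨r₀, hr₀, hmin⟩ := (wellFounded_lt (α := Fin m)).has_min {r | a r i = 1} ⟨r₁, hr₁'⟩
    have hr₀' : a r₀ i = 1 := hr₀
    have hlt : ∀ r' < r₀, a r' i = 0 := by
      intro r' hr'
      rcases h2 (a r' i) with h | h
      · exact h
      · exact absurd hr' (hmin r' h)
    have hA : ∀ r i', stA a i r i' = a r i' + a r i * a r₀ i' := by
      intro r i'
      unfold Pool.Agent.SGC.stA
      rw [GEL_piv a i r₀ hr₀' hlt (fun r' => a r' i')]
    have hB : ∀ r, stB a b i r = b r + a r i * b r₀ := by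
      intro r
      unfold Pool.Agent.SGC.stB
      rw [GEL_piv a i r₀ hr₀' hlt b]
    have hsum : ∀ (α : Fin t → ZMod 2) (r : Fin m),
        ∑ i', stA a i r i' * α i' = ∑ i', a r i' * α i' + a r i * ∑ i', a r₀ i' * α i' := by
      intro α r
      rw [Finset.mul_sum, ← Finset.sum_add_distrib]
      apply Finset.sum_congr rfl
      intro i' _
      rw [hA]; ring
    refine ⟨⟨?_, ?_⟩, ?_, hiii⟩
    · rintro ⟨α, hα⟩
      exact ⟨α, fun r => by rw [hsum, hB, hα r, hα r₀]⟩
    · rintro ⟨α, hα⟩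
      refine ⟨fun j => α j + if j = i then b r₀ + ∑ i', a r₀ i' * α i' else 0, fun r => ?_⟩
      have h3 := hα r
      rw [hsum, hB] at h3
      have h4 : ∑ j, a r j * (α j + if j = i then b r₀ + ∑ i', a r₀ i' * α i' else 0) =
          ∑ j, a r j * α j + a r i * (b r₀ + ∑ i', a r₀ i' * α i') := by
        simp only [mul_add, Finset.sum_add_distrib, mul_ite, mul_zero]
        rw [Finset.sum_ite_eq' Finset.univ i]
        simp
      rw [h4]
      have h5 := GEL_two (a r i * b r₀)
      calc ∑ j, a r j * α j + a r i * (b r₀ + ∑ i', a r₀ i' * α i')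
          = (∑ j, a r j * α j + a r i * ∑ i', a r₀ i' * α i') + a r i * b r₀ := by ring
        _ = b r + a r i * b r₀ + a r i * b r₀ := by rw [h3]
        _ = b r := by rw [add_assoc, h5, add_zero]
    · intro r
      rw [hA, hr₀', mul_one]
      exact GEL_two _

end Pool.Agent.SGK
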